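import Pool.Agent.L7h47.MW.Nd

set_option autoImplicit false

/-!
# Project MW: counting near-diagonal solutions (helper47)
-/

namespace Pool.Agent.L7h47.MW

open Finset
open Pool.Agent.L7h43.MW

/-- the integers near `a` -/
noncomputable def Nb (a : ℕ) (δ : ℝ) : Finset ℕ := Icc (a - ⌊δ⌋₊) (a + ⌊δ⌋₊)

theorem card_Nb (a : ℕ) (δ : ℝ) : (Nb a δ).card ≤ 2 * ⌊δ⌋₊ + 1 := by
  unfold Nb
  rw [Nat.card_Icc]
  omega

theorem mem_Nb {a n : ℕ} {δ : ℝ} (h : |(n : ℝ) - a| ≤ δ) : n ∈ Nb a δ := by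
  unfold Nb
  rw [mem_Icc]
  rcases le_total n a with h1 | h1
  · have h2 : ((a - n : ℕ) : ℝ) ≤ δ := by
      rw [Nat.cast_sub h1]
      have := neg_abs_le ((n : ℝ) - a)
      linarith
    have h3 : a - n ≤ ⌊δ⌋₊ := Nat.le_floor h2
    omega
  · have h2 : ((n - a : ℕ) : ℝ) ≤ δ := by
      rw [Nat.cast_sub h1]
      exact (le_abs_self _).trans h
    have h3 : n - a ≤ ⌊δ⌋₊ := Nat.le_floor h2
    omega

theorem card_Bx (X r : ℕ) : (Bx X r).card ≤ (3 * 5 ^ r * X) ^ r := by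
  unfold Bx
  rw [Fintype.card_piFinset]
  calc ∏ i : Fin r, (I X i).card ≤ ∏ _i : Fin r, 3 * 5 ^ r * X := by
        refine prod_le_prod' fun i _ => ?_
        unfold I
        rw [Nat.card_Ioc]
        have h1 : 5 ^ (i : ℕ) ≤ 5 ^ r := Nat.pow_le_pow_right (by norm_num) i.2.le
        have h2 : 4 * 5 ^ (i : ℕ) * X - 5 ^ (i : ℕ) * X = 3 * 5 ^ (i : ℕ) * X := by
          have : 4 * 5 ^ (i : ℕ) * X = 3 * 5 ^ (i : ℕ) * X + 5 ^ (i : ℕ) * X := by ring
          omega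
        rw [h2]
        exact Nat.mul_le_mul_right _ (Nat.mul_le_mul_left _ h1)
    _ = (3 * 5 ^ r * X) ^ r := by rw [prod_const, card_univ, Fintype.card_fin]

theorem Bx_init {X r : ℕ} {x : Fin (r + 1) → ℕ} (h : x ∈ Bx X (r + 1)) :
    (fun i : Fin r => x i.castSucc) ∈ Bx X r := by
  unfold Bx at *
  rw [Fintype.mem_piFinset] at *
  intro i
  exact h i.castSucc

theorem mem_filt {α : Type*} {p : α → Prop} {inst : DecidablePred p} {s : Finset α} {a : α}
    (h : a ∈ @Finset.filter _ p inst s) : a ∈ s ∧ p a := Finset.mem_filter.1 h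

theorem s_N1 : S_N1 := by
  classical
  intro r k hr hrk
  obtain ⟨r', rfl⟩ : ∃ r', r = r' + 1 := ⟨r - 1, by omega⟩
  obtain ⟨C₁, hC₁, h₁⟩ := s_ND (r' + 1) k hrk
  obtain ⟨C₂, hC₂, h₂⟩ := s_ND r' k (by omega)
  set m := k - (r' + 1) with hm
  have hm1 : k - r' = m + 1 := by omega
  rw [hm1] at h₂
  refine ⟨(4 * C₂ + 1) ^ r' * (2 * C₁ + 1) * (3 * 5 ^ (r' + 1)) ^ (r' + 1), by positivity,
    fun X hX L hL => ?_⟩
  have hXr : (1 : ℝ) ≤ X := by exact_mod_cast hX
  have hX0 : (0 : ℝ) < X := by linarith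
  have hLm : (1 : ℝ) ≤ L / X ^ m := by
    rw [le_div_iff₀ (by positivity), one_mul]; exact hL
  have hL0 : 0 ≤ L := le_trans (by positivity) hL
  set S := (@Finset.filter _ (fun p : (Fin (r' + 1) → ℕ) × (Fin (r' + 1) → ℕ) =>
    ∀ j, 1 ≤ j → j ≤ k → |∑ i, ((p.1 i : ℝ) ^ j - (p.2 i : ℝ) ^ j)| ≤ L)
      (fun a => Classical.propDecidable _) (Bx X (r' + 1) ×ˢ Bx X (r' + 1))) with hS
  set δ₁ := C₁ * L / X ^ m with hδ₁
  set δ := C₂ * (2 * L) / X ^ (m + 1) with hδ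
  have hδ0 : 0 ≤ δ := by positivity
  have hδ₁0 : 0 ≤ δ₁ := by positivity
  set t := ((Bx X (r' + 1)) ×ˢ (range (4 * 5 ^ r' * X + 1))).filter
    (fun q : (Fin (r' + 1) → ℕ) × ℕ => q.2 ∈ Nb (q.1 (Fin.last r')) δ₁) with ht
  have hSm : ∀ p ∈ S, p.1 ∈ Bx X (r' + 1) ∧ p.2 ∈ Bx X (r' + 1) ∧ ∀ j, 1 ≤ j → j ≤ k →
      |∑ i, ((p.1 i : ℝ) ^ j - (p.2 i : ℝ) ^ j)| ≤ L := by
    intro p hp
    have hp' := mem_filt hp
    have hp1 := mem_product.1 hp'.1
    exact ⟨hp1.1, hp1.2, hp'.2⟩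
  -- the first projection
  have hmaps : ∀ p ∈ S, ((p.2, p.1 (Fin.last r')) : (Fin (r' + 1) → ℕ) × ℕ) ∈ t := by
    intro p hp
    obtain ⟨a1, a2, a3⟩ := hSm p hp
    rw [ht, mem_filter, mem_product]
    refine ⟨⟨a2, ?_⟩, ?_⟩
    · rw [mem_range]
      have := Fintype.mem_piFinset.1 a1 (Fin.last r')
      unfold I at this
      rw [mem_Ioc] at this
      exact Nat.lt_succ_of_le this.2
    · refine mem_Nb ?_
      have := h₁ X hX L hL0 p.1 p.2 a1 a2 (fun j hj hj' => a3 j (by omega) hj') (Fin.last r')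
      rw [hδ₁, le_div_iff₀ (by positivity)]
      exact this
  have hfib : ∀ q ∈ t, (S.filter (fun p => ((p.2, p.1 (Fin.last r')) :
      (Fin (r' + 1) → ℕ) × ℕ) = q)).card ≤ (2 * ⌊δ⌋₊ + 1) ^ r' := by
    intro q hq
    rcases (S.filter (fun p => ((p.2, p.1 (Fin.last r')) :
      (Fin (r' + 1) → ℕ) × ℕ) = q)).eq_empty_or_nonempty with he | ⟨p0, hp0⟩
    · rw [he]; simp
    · rw [mem_filter] at hp0
      obtain ⟨b1, b2, b3⟩ := hSm p0 hp0.1
      calc (S.filter (fun p => ((p.2, p.1 (Fin.last r')) :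
            (Fin (r' + 1) → ℕ) × ℕ) = q)).card
          ≤ (Fintype.piFinset (fun i : Fin r' => Nb (p0.1 i.castSucc) δ)).card := by
            refine card_le_card_of_injOn (fun p => fun i : Fin r' => p.1 i.castSucc) ?_ ?_
            · intro p hp
              rw [mem_coe, mem_filter] at hp
              obtain ⟨a1, a2, a3⟩ := hSm p hp.1
              rw [mem_coe, Fintype.mem_piFinset]
              intro i
              refine mem_Nb ?_
              have e2 : p.2 = p0.2 := congrArg Prod.fst (hp.2.trans hp0.2.symm)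
              have e3 : p.1 (Fin.last r') = p0.1 (Fin.last r') :=
                congrArg Prod.snd (hp.2.trans hp0.2.symm)
              have := h₂ X hX (2 * L) (by positivity) (fun i : Fin r' => p.1 i.castSucc)
                (fun i : Fin r' => p0.1 i.castSucc) (Bx_init a1) (Bx_init b1)
                (fun j hj hj' => by
                  have c1 := a3 j (by omega) hj'
                  have c2 := b3 j (by omega) hj'
                  rw [e2] at c1
                  have e4 : ∑ i : Fin r', ((p.1 i.castSucc : ℝ) ^ j - (p0.1 i.castSucc : ℝ) ^ j) =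
                      (∑ i, ((p.1 i : ℝ) ^ j - (p0.2 i : ℝ) ^ j)) -
                      ∑ i, ((p0.1 i : ℝ) ^ j - (p0.2 i : ℝ) ^ j) := by
                    rw [← sum_sub_distrib, Fin.sum_univ_castSucc, e3]
                    simp
                  rw [e4]
                  refine (abs_sub _ _).trans ?_
                  linarith) i
              rw [hδ, le_div_iff₀ (by positivity)]
              exact this
            · intro p hp p' hp' hpp
              rw [mem_coe, mem_filter] at hp hp'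
              have e2 : p.2 = p'.2 := congrArg Prod.fst (hp.2.trans hp'.2.symm)
              have e3 : p.1 (Fin.last r') = p'.1 (Fin.last r') :=
                congrArg Prod.snd (hp.2.trans hp'.2.symm)
              refine Prod.ext ?_ e2
              funext i
              refine Fin.lastCases ?_ (fun i => ?_) i
              · exact e3
              · exact congrFun hpp i
        _ = ∏ i : Fin r', (Nb (p0.1 i.castSucc) δ).card := Fintype.card_piFinset _
        _ ≤ ∏ _i : Fin r', (2 * ⌊δ⌋₊ + 1) := prod_le_prod' fun i _ => card_Nb _ _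
        _ = (2 * ⌊δ⌋₊ + 1) ^ r' := by rw [prod_const, card_univ, Fintype.card_fin]
  have hS1 : S.card ≤ (2 * ⌊δ⌋₊ + 1) ^ r' * t.card :=
    card_le_mul_card_image_of_maps_to hmaps _ hfib
  have ht1 : t.card ≤ (2 * ⌊δ₁⌋₊ + 1) * (Bx X (r' + 1)).card := by
    refine card_le_mul_card_image_of_maps_to (f := fun q : (Fin (r' + 1) → ℕ) × ℕ => q.1)
      (fun q hq => ?_) _ (fun y hy => ?_)
    · rw [ht, mem_filter, mem_product] at hq
      exact hq.1.1
    · refine le_trans (card_le_card_of_injOn (fun q : (Fin (r' + 1) → ℕ) × ℕ => q.2)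
        (t := Nb (y (Fin.last r')) δ₁) ?_ ?_) (card_Nb _ _)
      · intro q hq
        rw [mem_coe, mem_filter, ht, mem_filter] at hq
        rw [mem_coe, ← hq.2]
        exact hq.1.2
      · intro q hq q' hq' hqq
        rw [mem_coe, mem_filter] at hq hq'
        exact Prod.ext (hq.2.trans hq'.2.symm) hqq
  have hcard : (S.card : ℝ) ≤ (2 * δ + 1) ^ r' * ((2 * δ₁ + 1) *
      (3 * 5 ^ (r' + 1) * X) ^ (r' + 1)) := by
    have h5 : S.card ≤ (2 * ⌊δ⌋₊ + 1) ^ r' * ((2 * ⌊δ₁⌋₊ + 1) *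
        (3 * 5 ^ (r' + 1) * X) ^ (r' + 1)) :=
      hS1.trans (Nat.mul_le_mul_left _ (ht1.trans (Nat.mul_le_mul_left _ (card_Bx X (r' + 1)))))
    have h6 : (S.card : ℝ) ≤ (((2 * ⌊δ⌋₊ + 1) ^ r' * ((2 * ⌊δ₁⌋₊ + 1) *
        (3 * 5 ^ (r' + 1) * X) ^ (r' + 1)) : ℕ) : ℝ) := by exact_mod_cast h5
    refine h6.trans ?_
    push_cast
    have f1 := Nat.floor_le hδ0
    have f2 := Nat.floor_le hδ₁0
    gcongr
  refine hcard.trans ?_
  have g1 : 2 * δ + 1 ≤ (4 * C₂ + 1) * (1 + L / X ^ (m + 1)) := by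
    have : 2 * δ + 1 = 4 * C₂ * (L / X ^ (m + 1)) + 1 := by rw [hδ]; ring
    rw [this]
    have h7 : 0 ≤ L / X ^ (m + 1) := by positivity
    nlinarith
  have g2 : 2 * δ₁ + 1 ≤ (2 * C₁ + 1) * (L / X ^ m) := by
    have : 2 * δ₁ + 1 = 2 * C₁ * (L / X ^ m) + 1 := by rw [hδ₁]; ring
    rw [this]
    nlinarith
  calc (2 * δ + 1) ^ r' * ((2 * δ₁ + 1) * (3 * 5 ^ (r' + 1) * X) ^ (r' + 1))
      ≤ ((4 * C₂ + 1) * (1 + L / X ^ (m + 1))) ^ r' * (((2 * C₁ + 1) * (L / X ^ m)) *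
        (3 * 5 ^ (r' + 1) * X) ^ (r' + 1)) := by
        gcongr
    _ = (4 * C₂ + 1) ^ r' * (2 * C₁ + 1) * (3 * 5 ^ (r' + 1)) ^ (r' + 1) *
        (X : ℝ) ^ (r' + 1) * (L / X ^ m) * (1 + L / X ^ (m + 1)) ^ (r' + 1 - 1) := by
        rw [Nat.add_sub_cancel, mul_pow (4 * C₂ + 1), mul_pow (3 * 5 ^ (r' + 1) : ℝ) (X : ℝ)]
        ring

end Pool.Agent.L7h47.MW
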