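import Pool.Agent.L7h43.MW.Stm

set_option autoImplicit false

/-!
# Project MW: the second moment over a box (helper47)
-/

namespace Pool.Agent.L7h47.MW

open Finset MeasureTheory Complex
open scoped ENNReal ComplexConjugate
open Pool.Agent.L7h43.MW

theorem ee_add (x y : ℝ) : ee (x + y) = ee x * ee y := by
  unfold ee
  rw [← Complex.exp_add]
  congr 1
  push_cast
  ring

theorem ee_zero : ee 0 = 1 := by simp [ee]

theorem norm_ee (x : ℝ) : ‖ee x‖ = 1 := by
  unfold ee
  rw [Complex.norm_exp]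
  simp

theorem conj_ee (x : ℝ) : conj (ee x) = ee (-x) := by
  unfold ee
  rw [← Complex.exp_conj]
  congr 1
  simp only [map_mul, Complex.conj_ofReal, Complex.conj_I]
  rw [map_ofNat]
  push_cast
  ring

theorem ee_sum {ι : Type*} (s : Finset ι) (f : ι → ℝ) : ee (∑ i ∈ s, f i) = ∏ i ∈ s, ee (f i) := by
  classical
  induction s using Finset.induction_on with
  | empty => simp [ee_zero]
  | insert a s ha ih => rw [sum_insert ha, prod_insert ha, ee_add, ih]

theorem continuous_ee : Continuous ee := by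
  unfold ee
  fun_prop

/-- the Gaussian weight -/
noncomputable def gw (s t : ℝ) : ℝ := Real.exp (-(Real.pi * (t / s) ^ 2))

theorem gw_pos (s t : ℝ) : 0 < gw s t := Real.exp_pos _

theorem continuous_gw (s : ℝ) : Continuous (gw s) := by
  unfold gw
  fun_prop

theorem gw_int {s : ℝ} (hs : 0 < s) : Integrable (gw s) := by
  have h := integrable_exp_neg_mul_sq (b := Real.pi / s ^ 2) (by positivity)
  refine h.congr (Filter.Eventually.of_forall fun t => ?_)
  show Real.exp (-(Real.pi / s ^ 2) * t ^ 2) = gw s t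
  unfold gw
  congr 1
  field_simp

theorem gwe_int {s : ℝ} (hs : 0 < s) (x : ℝ) :
    Integrable (fun t : ℝ => (gw s t : ℂ) * ee (t * x)) := by
  have h1 : Integrable (fun t : ℝ => (gw s t : ℂ)) := (gw_int hs).ofReal
  refine h1.mul_bdd (c := 1) ?_ (Filter.Eventually.of_forall fun t => ?_)
  · exact (continuous_ee.comp (continuous_id.mul continuous_const)).aestronglyMeasurable
  · exact (norm_ee _).le

/-- the Fourier transform of the Gaussian -/
theorem gauss {s : ℝ} (hs : 0 < s) (x : ℝ) :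
    ∫ t : ℝ, (gw s t : ℂ) * ee (t * x) = ((s * Real.exp (-(Real.pi * s ^ 2 * x ^ 2)) : ℝ) : ℂ) := by
  have hb : 0 < ((Real.pi / s ^ 2 : ℝ) : ℂ).re := by
    rw [Complex.ofReal_re]; positivity
  have key := fourierIntegral_gaussian hb ((2 * Real.pi * x : ℝ) : ℂ)
  have e1 : ∫ t : ℝ, (gw s t : ℂ) * ee (t * x) =
      ∫ t : ℝ, cexp (Complex.I * ((2 * Real.pi * x : ℝ) : ℂ) * t) *
        cexp (-((Real.pi / s ^ 2 : ℝ) : ℂ) * t ^ 2) := by
    refine integral_congr_ae (Filter.Eventually.of_forall fun t => ?_)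
    show (gw s t : ℂ) * ee (t * x) = cexp (Complex.I * ((2 * Real.pi * x : ℝ) : ℂ) * t) *
        cexp (-((Real.pi / s ^ 2 : ℝ) : ℂ) * t ^ 2)
    unfold gw ee
    rw [mul_comm, Complex.ofReal_exp]
    congr 1
    · congr 1
      push_cast
      ring
    · congr 1
      push_cast
      have : (s : ℂ) ≠ 0 := by exact_mod_cast hs.ne'
      field_simp
  rw [e1, key]
  have e2 : ((Real.pi : ℂ) / ((Real.pi / s ^ 2 : ℝ) : ℂ)) = ((s ^ 2 : ℝ) : ℂ) := by
    push_cast
    have h1 : (s : ℂ) ≠ 0 := by exact_mod_cast hs.ne'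
    have h2 : (Real.pi : ℂ) ≠ 0 := by exact_mod_cast Real.pi_ne_zero
    field_simp
  rw [e2]
  have e3 : (((s ^ 2 : ℝ) : ℂ)) ^ (1 / 2 : ℂ) = (s : ℂ) := by
    have h3 : (1 / 2 : ℂ) = ((1 / 2 : ℝ) : ℂ) := by push_cast; ring
    rw [h3, ← Complex.ofReal_cpow (by positivity)]
    congr 1
    rw [← Real.sqrt_eq_rpow, Real.sqrt_sq hs.le]
  rw [e3]
  push_cast
  congr 1
  congr 1
  have h1 : (s : ℂ) ≠ 0 := by exact_mod_cast hs.ne'
  have h2 : (Real.pi : ℂ) ≠ 0 := by exact_mod_cast Real.pi_ne_zero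
  field_simp
  ring

/-- the product weight -/
noncomputable def gp {d : ℕ} (s : ℝ) (θ : Fin d → ℝ) : ℝ := ∏ j, gw s (θ j)

/-- the kernel -/
noncomputable def kr {d : ℕ} (s : ℝ) (x y : Fin d → ℝ) : ℝ :=
  Real.exp (-(Real.pi * s ^ 2 * ∑ j, (x j - y j) ^ 2))

theorem gp_nonneg {d : ℕ} (s : ℝ) (θ : Fin d → ℝ) : 0 ≤ gp s θ :=
  prod_nonneg fun _ _ => (gw_pos _ _).le

theorem continuous_gp {d : ℕ} (s : ℝ) : Continuous (gp (d := d) s) := by
  unfold gp
  exact continuous_finsetProd _ fun j _ => (continuous_gw s).comp (continuous_apply j)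

theorem gpe_int {d : ℕ} {s : ℝ} (hs : 0 < s) (x : Fin d → ℝ) :
    Integrable (fun θ : Fin d → ℝ => (gp s θ : ℂ) * ee (∑ j, θ j * x j)) := by
  have h := Integrable.fintype_prod_dep (𝕜 := ℂ) (ι := Fin d) (E := fun _ => ℝ)
    (f := fun j (t : ℝ) => (gw s t : ℂ) * ee (t * x j)) (μ := fun _ => volume)
    (fun j => gwe_int hs (x j))
  refine h.congr (Filter.Eventually.of_forall fun θ => ?_)
  show ∏ j, ((gw s (θ j) : ℂ) * ee (θ j * x j)) = (gp s θ : ℂ) * ee (∑ j, θ j * x j)
  rw [prod_mul_distrib, ee_sum]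
  unfold gp
  push_cast
  rfl

theorem gauss_d {d : ℕ} {s : ℝ} (hs : 0 < s) (x : Fin d → ℝ) :
    ∫ θ : Fin d → ℝ, (gp s θ : ℂ) * ee (∑ j, θ j * x j) =
      ((s ^ d * Real.exp (-(Real.pi * s ^ 2 * ∑ j, (x j) ^ 2)) : ℝ) : ℂ) := by
  have h := integral_fintype_prod_volume_eq_prod (𝕜 := ℂ) (ι := Fin d) (E := fun _ => ℝ)
    (fun j (t : ℝ) => (gw s t : ℂ) * ee (t * x j))
  have e1 : ∫ θ : Fin d → ℝ, (gp s θ : ℂ) * ee (∑ j, θ j * x j) =
      ∫ θ : Fin d → ℝ, ∏ j, ((gw s (θ j) : ℂ) * ee (θ j * x j)) := by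
    refine integral_congr_ae (Filter.Eventually.of_forall fun θ => ?_)
    show (gp s θ : ℂ) * ee (∑ j, θ j * x j) = ∏ j, ((gw s (θ j) : ℂ) * ee (θ j * x j))
    rw [prod_mul_distrib, ee_sum]
    unfold gp
    push_cast
    rfl
  rw [e1, h]
  simp only [gauss hs]
  rw [← Complex.ofReal_prod, prod_mul_distrib, prod_const, card_univ, Fintype.card_fin]
  congr 2
  rw [← Real.exp_sum]
  congr 1
  rw [mul_sum, ← sum_neg_distrib]

/-- the Gaussian mean square -/
theorem gsq {d : ℕ} {s : ℝ} (hs : 0 < s) {ι : Type} (V : Finset ι) (c : ι → ℂ)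
    (x : ι → Fin d → ℝ) :
    Integrable (fun θ : Fin d → ℝ => gp s θ * ‖∑ v ∈ V, c v * ee (∑ j, θ j * x v j)‖ ^ 2) ∧
    ((∫ θ : Fin d → ℝ, gp s θ * ‖∑ v ∈ V, c v * ee (∑ j, θ j * x v j)‖ ^ 2 : ℝ) : ℂ) =
      ∑ v ∈ V, ∑ v' ∈ V, c v * conj (c v') * ((s ^ d * kr s (x v) (x v') : ℝ) : ℂ) := by
  have hpt : ∀ θ : Fin d → ℝ,
      ((gp s θ * ‖∑ v ∈ V, c v * ee (∑ j, θ j * x v j)‖ ^ 2 : ℝ) : ℂ) =
      ∑ v ∈ V, ∑ v' ∈ V, c v * conj (c v') *
        ((gp s θ : ℂ) * ee (∑ j, θ j * (x v j - x v' j))) := by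
    intro θ
    push_cast
    rw [← Complex.mul_conj', map_sum, sum_mul_sum, mul_sum]
    refine sum_congr rfl fun v _ => ?_
    rw [mul_sum]
    refine sum_congr rfl fun v' _ => ?_
    rw [map_mul, conj_ee]
    have e1 : ee (∑ j, θ j * (x v j - x v' j)) =
        ee (∑ j, θ j * x v j) * ee (-∑ j, θ j * x v' j) := by
      rw [← ee_add, ← sub_eq_add_neg, ← sum_sub_distrib]
      congr 1
      refine sum_congr rfl fun j _ => ?_
      ring
    rw [e1]
    ring
  have hint : ∀ v v', Integrable (fun θ : Fin d → ℝ => c v * conj (c v') *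
        ((gp s θ : ℂ) * ee (∑ j, θ j * (x v j - x v' j)))) := fun v v' =>
    (gpe_int hs (fun j => x v j - x v' j)).const_mul _
  have hI : Integrable (fun θ : Fin d → ℝ =>
      ((gp s θ * ‖∑ v ∈ V, c v * ee (∑ j, θ j * x v j)‖ ^ 2 : ℝ) : ℂ)) := by
    simp only [hpt]
    exact integrable_finsetSum _ fun v _ => integrable_finsetSum _ fun v' _ => hint v v'
  have hI' : Integrable (fun θ : Fin d → ℝ =>
      gp s θ * ‖∑ v ∈ V, c v * ee (∑ j, θ j * x v j)‖ ^ 2) :=
    hI.re.congr (Filter.Eventually.of_forall fun θ => Complex.ofReal_re _)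
  refine ⟨hI', ?_⟩
  rw [← integral_complex_ofReal]
  simp only [hpt]
  rw [integral_finsetSum _ fun v _ => integrable_finsetSum _ fun v' _ => hint v v']
  refine sum_congr rfl fun v _ => ?_
  rw [integral_finsetSum _ fun v' _ => hint v v']
  refine sum_congr rfl fun v' _ => ?_
  rw [integral_const_mul, gauss_d hs]
  rfl

theorem s_MOM : S_MOM := by
  classical
  intro d B hB
  have hBr : (1 : ℝ) ≤ B := by exact_mod_cast hB
  refine ⟨Real.exp (Real.pi * (d + 1)) * (2 * B) ^ (d + 1), by positivity, fun ι V D Ξ hΞ => ?_⟩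
  set M : ℝ := 2 * B * Ξ with hM
  have hM0 : 0 < M := by positivity
  let Δ : ι → ι → ℝ := fun v v' => D v (Fin.last d) - D v' (Fin.last d)
  let k₀ : ι → ι → ℝ := fun v v' => kr M (fun j : Fin d => D v j.castSucc)
    (fun j : Fin d => D v' j.castSucc)
  let KC : ℝ → ℂ := fun ξ => ∑ v ∈ V, ∑ v' ∈ V, ee (ξ * Δ v v') * (k₀ v v' : ℂ)
  let K : ℝ → ℝ := fun ξ => (KC ξ).re
  have hcc : ∀ (ξ : ℝ) (v v' : ι), ee (ξ * D v (Fin.last d)) * conj (ee (ξ * D v' (Fin.last d))) =
      ee (ξ * Δ v v') := by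
    intro ξ v v'
    rw [conj_ee, ← ee_add]
    congr 1
    simp only [Δ]
    ring
  -- positivity of K
  have hK0 : ∀ ξ, 0 ≤ K ξ := by
    intro ξ
    obtain ⟨-, h2⟩ := gsq hM0 V (fun v => ee (ξ * D v (Fin.last d)))
      (fun v j => D v (Fin.castSucc j))
    have e1 : ∑ v ∈ V, ∑ v' ∈ V, ee (ξ * D v (Fin.last d)) * conj (ee (ξ * D v' (Fin.last d))) *
        ((M ^ d * kr M (fun j : Fin d => D v j.castSucc) (fun j : Fin d => D v' j.castSucc) : ℝ) : ℂ)
        = ((M ^ d : ℝ) : ℂ) * KC ξ := by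
      rw [mul_sum]
      refine sum_congr rfl fun v _ => ?_
      rw [mul_sum]
      refine sum_congr rfl fun v' _ => ?_
      rw [hcc]
      push_cast
      ring
    rw [e1] at h2
    have h3 := congrArg Complex.re h2
    rw [Complex.ofReal_re, Complex.re_ofReal_mul] at h3
    have h4 : 0 ≤ M ^ d * K ξ := by
      show 0 ≤ M ^ d * (KC ξ).re
      rw [← h3]
      exact integral_nonneg fun θ => mul_nonneg (gp_nonneg _ _) (by positivity)
    exact nonneg_of_mul_nonneg_right h4 (by positivity)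
  -- the inner integral
  have hin : ∀ ξ ∈ Set.Icc Ξ (2 * Ξ), ∫⁻ θ in Box d B, ENNReal.ofReal (‖∑ v ∈ V,
      ee (ξ * (D v (Fin.last d) + ∑ j : Fin d, θ j * D v j.castSucc))‖ ^ 2) ≤
      ENNReal.ofReal (Real.exp (Real.pi * d) * (2 * B) ^ d * K ξ) := by
    intro ξ hξ
    have hξ0 : 0 < ξ := hΞ.trans_le hξ.1
    set s : ℝ := M / ξ with hs
    have hs0 : 0 < s := by positivity
    obtain ⟨g1, g2⟩ := gsq hs0 V (fun v => ee (ξ * D v (Fin.last d)))
      (fun v j => ξ * D v (Fin.castSucc j))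
    have e0 : ∀ θ : Fin d → ℝ, ∑ v ∈ V,
        ee (ξ * (D v (Fin.last d) + ∑ j : Fin d, θ j * D v j.castSucc)) =
        ∑ v ∈ V, ee (ξ * D v (Fin.last d)) * ee (∑ j, θ j * (ξ * D v (Fin.castSucc j))) := by
      intro θ
      refine sum_congr rfl fun v _ => ?_
      rw [← ee_add]
      congr 1
      rw [mul_add, mul_sum]
      congr 1
      refine sum_congr rfl fun j _ => ?_
      ring
    have e1 : ∑ v ∈ V, ∑ v' ∈ V, ee (ξ * D v (Fin.last d)) * conj (ee (ξ * D v' (Fin.last d))) *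
        ((s ^ d * kr s (fun j : Fin d => ξ * D v j.castSucc)
          (fun j : Fin d => ξ * D v' j.castSucc) : ℝ) : ℂ)
        = ((s ^ d : ℝ) : ℂ) * KC ξ := by
      rw [mul_sum]
      refine sum_congr rfl fun v _ => ?_
      rw [mul_sum]
      refine sum_congr rfl fun v' _ => ?_
      rw [hcc]
      have e2 : kr s (fun j : Fin d => ξ * D v j.castSucc) (fun j : Fin d => ξ * D v' j.castSucc) =
          k₀ v v' := by
        show Real.exp _ = Real.exp _
        congr 2
        rw [mul_sum, mul_sum]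
        refine sum_congr rfl fun j _ => ?_
        rw [hs]
        field_simp
      rw [e2]
      push_cast
      ring
    rw [e1] at g2
    have g3 := congrArg Complex.re g2
    rw [Complex.ofReal_re, Complex.re_ofReal_mul] at g3
    calc ∫⁻ θ in Box d B, ENNReal.ofReal (‖∑ v ∈ V,
          ee (ξ * (D v (Fin.last d) + ∑ j : Fin d, θ j * D v j.castSucc))‖ ^ 2)
        ≤ ∫⁻ θ in Box d B, ENNReal.ofReal (Real.exp (Real.pi * d) * (gp s θ *
          ‖∑ v ∈ V, ee (ξ * D v (Fin.last d)) *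
            ee (∑ j, θ j * (ξ * D v (Fin.castSucc j)))‖ ^ 2)) := by
          refine setLIntegral_mono' ?_ fun θ hθ => ?_
          · have : Box d B = Set.pi Set.univ (fun _ : Fin d => Set.Icc (-(B : ℝ)) B) := by
              ext θ
              exact ⟨fun h j _ => abs_le.1 (h j), fun h j => abs_le.2 (h j trivial)⟩
            rw [this]
            exact MeasurableSet.univ_pi fun _ => measurableSet_Icc
          · rw [e0]
            refine ENNReal.ofReal_le_ofReal ?_
            have h1 : 1 ≤ Real.exp (Real.pi * d) * gp s θ := by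
              have h2 : Real.exp (-(Real.pi * d)) ≤ gp s θ := by
                have h3 : Real.exp (-(Real.pi * d)) = ∏ _j : Fin d, Real.exp (-Real.pi) := by
                  rw [prod_const, card_univ, Fintype.card_fin, ← Real.exp_nat_mul]
                  congr 1
                  ring
                rw [h3]
                refine prod_le_prod (fun j _ => (Real.exp_pos _).le) fun j _ => ?_
                refine Real.exp_le_exp.2 ?_
                have h4 : (θ j / s) ^ 2 ≤ 1 := by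
                  rw [sq_le_one_iff_abs_le_one, abs_div, abs_of_pos hs0, div_le_one hs0]
                  have h5 : (B : ℝ) ≤ s := by
                    rw [hs, le_div_iff₀ hξ0, hM]
                    nlinarith [hξ.2]
                  exact (hθ j).trans h5
                nlinarith [Real.pi_pos]
              calc (1 : ℝ) = Real.exp (Real.pi * d) * Real.exp (-(Real.pi * d)) := by
                    rw [← Real.exp_add]; simp
                _ ≤ _ := mul_le_mul_of_nonneg_left h2 (Real.exp_pos _).le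
            have h6 : (0 : ℝ) ≤ ‖∑ v ∈ V, ee (ξ * D v (Fin.last d)) *
              ee (∑ j, θ j * (ξ * D v (Fin.castSucc j)))‖ ^ 2 := by positivity
            calc ‖∑ v ∈ V, ee (ξ * D v (Fin.last d)) *
                ee (∑ j, θ j * (ξ * D v (Fin.castSucc j)))‖ ^ 2
                ≤ (Real.exp (Real.pi * d) * gp s θ) * ‖∑ v ∈ V, ee (ξ * D v (Fin.last d)) *
                ee (∑ j, θ j * (ξ * D v (Fin.castSucc j)))‖ ^ 2 := le_mul_of_one_le_left h6 h1
              _ = _ := by ring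
      _ ≤ ∫⁻ θ : Fin d → ℝ, ENNReal.ofReal (Real.exp (Real.pi * d) * (gp s θ *
          ‖∑ v ∈ V, ee (ξ * D v (Fin.last d)) *
            ee (∑ j, θ j * (ξ * D v (Fin.castSucc j)))‖ ^ 2)) := setLIntegral_le_lintegral _ _
      _ = ENNReal.ofReal (∫ θ : Fin d → ℝ, Real.exp (Real.pi * d) * (gp s θ *
          ‖∑ v ∈ V, ee (ξ * D v (Fin.last d)) *
            ee (∑ j, θ j * (ξ * D v (Fin.castSucc j)))‖ ^ 2)) := by
          rw [ofReal_integral_eq_lintegral_ofReal (g1.const_mul _)]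
          exact Filter.Eventually.of_forall fun θ => mul_nonneg (Real.exp_pos _).le
            (mul_nonneg (gp_nonneg _ _) (by positivity))
      _ = ENNReal.ofReal (Real.exp (Real.pi * d) * (s ^ d * K ξ)) := by
          rw [integral_const_mul, g3]
      _ ≤ ENNReal.ofReal (Real.exp (Real.pi * d) * (2 * B) ^ d * K ξ) := by
          refine ENNReal.ofReal_le_ofReal ?_
          rw [mul_assoc]
          refine mul_le_mul_of_nonneg_left ?_ (Real.exp_pos _).le
          refine mul_le_mul_of_nonneg_right ?_ (hK0 ξ)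
          refine pow_le_pow_left₀ hs0.le ?_ d
          rw [hs, div_le_iff₀ hξ0, hM]
          exact mul_le_mul_of_nonneg_left hξ.1 (by positivity)
  -- the outer integral
  have hint : ∀ v v', Integrable (fun ξ : ℝ => (k₀ v v' : ℂ) * ((gw M ξ : ℂ) * ee (ξ * Δ v v'))) :=
    fun v v' => (gwe_int hM0 _).const_mul _
  have hpt : ∀ ξ : ℝ, (gw M ξ : ℂ) * KC ξ = ∑ v ∈ V, ∑ v' ∈ V,
      (k₀ v v' : ℂ) * ((gw M ξ : ℂ) * ee (ξ * Δ v v')) := by
    intro ξ
    show (gw M ξ : ℂ) * ∑ v ∈ V, ∑ v' ∈ V, ee (ξ * Δ v v') * (k₀ v v' : ℂ) = _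
    rw [mul_sum]
    refine sum_congr rfl fun v _ => ?_
    rw [mul_sum]
    refine sum_congr rfl fun v' _ => ?_
    ring
  have hIC : Integrable (fun ξ : ℝ => (gw M ξ : ℂ) * KC ξ) := by
    simp only [hpt]
    exact integrable_finsetSum _ fun v _ => integrable_finsetSum _ fun v' _ => hint v v'
  have hre : ∀ ξ : ℝ, ((gw M ξ : ℂ) * KC ξ).re = gw M ξ * K ξ := fun ξ => by
    rw [Complex.re_ofReal_mul]
  have hIR : Integrable (fun ξ : ℝ => gw M ξ * K ξ) :=
    hIC.re.congr (Filter.Eventually.of_forall fun ξ => hre ξ)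
  have hval : ∫ ξ : ℝ, gw M ξ * K ξ = M * ∑ v ∈ V, ∑ v' ∈ V,
      Real.exp (-(Real.pi * M ^ 2 * ∑ j, (D v j - D v' j) ^ 2)) := by
    have h1 : ∫ ξ : ℝ, gw M ξ * K ξ = (∫ ξ : ℝ, (gw M ξ : ℂ) * KC ξ).re := by
      have := integral_re (𝕜 := ℂ) hIC
      rw [← RCLike.re_eq_complex_re, ← this]
      refine integral_congr_ae (Filter.Eventually.of_forall fun ξ => (hre ξ).symm)
    rw [h1]
    simp only [hpt]
    rw [integral_finsetSum _ fun v _ => integrable_finsetSum _ fun v' _ => hint v v',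
      Complex.re_sum, mul_sum]
    refine sum_congr rfl fun v _ => ?_
    rw [integral_finsetSum _ fun v' _ => hint v v', Complex.re_sum, mul_sum]
    refine sum_congr rfl fun v' _ => ?_
    rw [integral_const_mul, gauss hM0, ← Complex.ofReal_mul, Complex.ofReal_re]
    show Real.exp _ * (M * Real.exp _) = _
    have : ∀ a b c : ℝ, a * (b * c) = b * (a * c) := fun a b c => by ring
    rw [this, ← Real.exp_add]
    congr 2
    rw [Fin.sum_univ_castSucc]
    ring
  have hmeas : Measurable (Function.uncurry fun (θ : Fin d → ℝ) (ξ : ℝ) =>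
      ENNReal.ofReal (‖∑ v ∈ V,
        ee (ξ * (D v (Fin.last d) + ∑ j : Fin d, θ j * D v j.castSucc))‖ ^ 2)) := by
    refine (Continuous.measurable ?_).ennreal_ofReal
    refine Continuous.pow (continuous_norm.comp (continuous_finsetSum _ fun v _ => ?_)) 2
    refine continuous_ee.comp ?_
    fun_prop
  rw [lintegral_lintegral_swap hmeas.aemeasurable]
  calc ∫⁻ ξ in Set.Icc Ξ (2 * Ξ), ∫⁻ θ in Box d B, ENNReal.ofReal (‖∑ v ∈ V,
        ee (ξ * (D v (Fin.last d) + ∑ j : Fin d, θ j * D v j.castSucc))‖ ^ 2)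
      ≤ ∫⁻ ξ in Set.Icc Ξ (2 * Ξ), ENNReal.ofReal (Real.exp (Real.pi * d) * (2 * B) ^ d *
          Real.exp Real.pi * (gw M ξ * K ξ)) := by
        refine setLIntegral_mono' measurableSet_Icc fun ξ hξ => (hin ξ hξ).trans ?_
        refine ENNReal.ofReal_le_ofReal ?_
        have h1 : 1 ≤ Real.exp Real.pi * gw M ξ := by
          have h2 : Real.exp (-Real.pi) ≤ gw M ξ := by
            refine Real.exp_le_exp.2 ?_
            have hξ0 : 0 < ξ := hΞ.trans_le hξ.1
            have h4 : (ξ / M) ^ 2 ≤ 1 := by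
              rw [sq_le_one_iff_abs_le_one, abs_div, abs_of_pos hM0, div_le_one hM0,
                abs_of_pos hξ0, hM]
              nlinarith [hξ.2]
            nlinarith [Real.pi_pos]
          calc (1 : ℝ) = Real.exp Real.pi * Real.exp (-Real.pi) := by
                rw [← Real.exp_add]; simp
            _ ≤ _ := mul_le_mul_of_nonneg_left h2 (Real.exp_pos _).le
        calc Real.exp (Real.pi * d) * (2 * B) ^ d * K ξ
            ≤ (Real.exp (Real.pi * d) * (2 * B) ^ d * K ξ) * (Real.exp Real.pi * gw M ξ) :=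
              le_mul_of_one_le_right (mul_nonneg (by positivity) (hK0 ξ)) h1
          _ = _ := by ring
    _ ≤ ∫⁻ ξ : ℝ, ENNReal.ofReal (Real.exp (Real.pi * d) * (2 * B) ^ d *
          Real.exp Real.pi * (gw M ξ * K ξ)) := setLIntegral_le_lintegral _ _
    _ = ENNReal.ofReal (∫ ξ : ℝ, Real.exp (Real.pi * d) * (2 * B) ^ d *
          Real.exp Real.pi * (gw M ξ * K ξ)) := by
        rw [ofReal_integral_eq_lintegral_ofReal (hIR.const_mul _)]
        exact Filter.Eventually.of_forall fun ξ => mul_nonneg (by positivity)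
          (mul_nonneg (gw_pos _ _).le (hK0 ξ))
    _ ≤ _ := by
        refine ENNReal.ofReal_le_ofReal ?_
        rw [integral_const_mul, hval]
        have h7 : ∑ v ∈ V, ∑ v' ∈ V, Real.exp (-(Real.pi * M ^ 2 * ∑ j, (D v j - D v' j) ^ 2)) ≤
            ∑ v ∈ V, ∑ v' ∈ V, Real.exp (-(Real.pi * Ξ ^ 2 * ∑ j, (D v j - D v' j) ^ 2)) := by
          refine sum_le_sum fun v _ => sum_le_sum fun v' _ => Real.exp_le_exp.2 ?_
          refine neg_le_neg (mul_le_mul_of_nonneg_right ?_ (sum_nonneg fun j _ => sq_nonneg _))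
          refine mul_le_mul_of_nonneg_left ?_ Real.pi_pos.le
          refine pow_le_pow_left₀ hΞ.le ?_ 2
          rw [hM]
          nlinarith
        have h8 : Real.exp (Real.pi * (d + 1)) = Real.exp (Real.pi * d) * Real.exp Real.pi := by
          rw [← Real.exp_add]; congr 1; ring
        calc Real.exp (Real.pi * d) * (2 * B) ^ d * Real.exp Real.pi * (M * ∑ v ∈ V, ∑ v' ∈ V,
              Real.exp (-(Real.pi * M ^ 2 * ∑ j, (D v j - D v' j) ^ 2)))
            ≤ Real.exp (Real.pi * d) * (2 * B) ^ d * Real.exp Real.pi * (M * ∑ v ∈ V, ∑ v' ∈ V,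
              Real.exp (-(Real.pi * Ξ ^ 2 * ∑ j, (D v j - D v' j) ^ 2))) := by
              refine mul_le_mul_of_nonneg_left ?_ (by positivity)
              exact mul_le_mul_of_nonneg_left h7 hM0.le
          _ = _ := by
              rw [h8, hM]
              ring

end Pool.Agent.L7h47.MW
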