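import Pool.Agent.L7h43.MW.Stm

set_option autoImplicit false

/-!
# Project MW: the near-diagonal lemma (helper47)
-/

namespace Pool.Agent.L7h47.MW

open Finset Polynomial
open Pool.Agent.L7h43.MW

/-- polynomials with prescribed signs on the separated intervals -/
theorem sgn_poly (r : ℕ) (ε : ℕ → ℝ) (hε : ∀ i, ε i = 1 ∨ ε i = -1) :
    ∃ q : ℝ[X], q.natDegree ≤ r ∧
      (∀ i ≤ r, ∀ t : ℝ, (5 : ℝ) ^ i ≤ t → t ≤ 4 * 5 ^ i → (1 / 2 : ℝ) ^ (r + 1) ≤ ε i * q.eval t) ∧
      ∀ t : ℝ, (5 : ℝ) ^ r ≤ t → (1 / 2 : ℝ) ^ (r + 1) ≤ ε r * q.eval t := by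
  induction r with
  | zero =>
    have h0 : ε 0 * ε 0 = 1 := by
      rcases hε 0 with h | h <;> rw [h] <;> norm_num
    refine ⟨C (ε 0), by simp, fun i hi t _ _ => ?_, fun t _ => ?_⟩
    · have : i = 0 := by omega
      subst this
      rw [eval_C, h0]; norm_num
    · rw [eval_C, h0]; norm_num
  | succ r ih =>
    obtain ⟨q, h1, h2, h3⟩ := ih
    have h5 : (1 : ℝ) ≤ 5 ^ r := one_le_pow₀ (by norm_num)
    have hpow : (1 / 2 : ℝ) ^ (r + 1 + 1) = (1 / 2) * (1 / 2 : ℝ) ^ (r + 1) := by rw [pow_succ]; ring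
    have hpos : 0 < (1 / 2 : ℝ) ^ (r + 1) := by positivity
    by_cases hs : ε (r + 1) = ε r
    · refine ⟨q, h1.trans (Nat.le_succ r), fun i hi t ht ht' => ?_, fun t ht => ?_⟩
      · rcases Nat.lt_or_ge r i with h | h
        · have : i = r + 1 := by omega
          subst this
          rw [hs, hpow]
          have := h3 t (le_trans (by rw [pow_succ]; linarith) ht)
          linarith
        · have := h2 i h t ht ht'
          rw [hpow]; linarith
      · rw [hs, hpow]
        have := h3 t (le_trans (by rw [pow_succ]; linarith) ht)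
        linarith
    · have hs' : ε (r + 1) = - ε r := by
        rcases hε (r + 1) with h | h <;> rcases hε r with h' | h'
        · exact absurd (h.trans h'.symm) hs
        · rw [h, h']; norm_num
        · rw [h, h']
        · exact absurd (h.trans h'.symm) hs
      refine ⟨(C (9 / 2 * 5 ^ r) - X) * q, ?_, ?_, ?_⟩
      · refine natDegree_mul_le.trans ?_
        have : (C (9 / 2 * 5 ^ r : ℝ) - X : ℝ[X]).natDegree ≤ 1 :=
          (natDegree_sub_le _ _).trans (max_le (by rw [natDegree_C]; exact Nat.zero_le _)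
            natDegree_X.le)
        omega
      · have key : ∀ t : ℝ, (5 : ℝ) ^ (r + 1) ≤ t →
            (1 / 2 : ℝ) ^ (r + 1 + 1) ≤ ε (r + 1) * ((C (9 / 2 * 5 ^ r) - X) * q : ℝ[X]).eval t := by
          intro t ht
          have h4 := h3 t (le_trans (by rw [pow_succ]; linarith) ht)
          rw [eval_mul, eval_sub, eval_C, eval_X, hs', hpow]
          have h6 : (1 / 2 : ℝ) ≤ t - 9 / 2 * 5 ^ r := by
            rw [pow_succ] at ht; linarith
          have h7 : -ε r * ((9 / 2 * 5 ^ r - t) * q.eval t) =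
            (t - 9 / 2 * 5 ^ r) * (ε r * q.eval t) := by ring
          rw [h7]
          exact mul_le_mul h6 h4 hpos.le (by linarith)
        intro i hi t ht ht'
        rcases Nat.lt_or_ge r i with h | h
        · have : i = r + 1 := by omega
          subst this
          exact key t ht
        · have h4 := h2 i h t ht ht'
          rw [eval_mul, eval_sub, eval_C, eval_X, hpow]
          have h8 : (5 : ℝ) ^ i ≤ 5 ^ r := pow_le_pow_right₀ (by norm_num) h
          have h6 : (1 / 2 : ℝ) ≤ 9 / 2 * 5 ^ r - t := by linarith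
          have h7 : ε i * ((9 / 2 * 5 ^ r - t) * q.eval t) =
            (9 / 2 * 5 ^ r - t) * (ε i * q.eval t) := by ring
          rw [h7]
          exact mul_le_mul h6 h4 hpos.le (by linarith)
      · intro t ht
        have h4 := h3 t (le_trans (by rw [pow_succ]; linarith) ht)
        rw [eval_mul, eval_sub, eval_C, eval_X, hs', hpow]
        have h6 : (1 / 2 : ℝ) ≤ t - 9 / 2 * 5 ^ r := by
          rw [pow_succ] at ht; linarith
        have h7 : -ε r * ((9 / 2 * 5 ^ r - t) * q.eval t) =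
          (t - 9 / 2 * 5 ^ r) * (ε r * q.eval t) := by ring
        rw [h7]
        exact mul_le_mul h6 h4 hpos.le (by linarith)

/-- a primitive of `t ^ m * q t` -/
noncomputable def prim (m r : ℕ) (q : ℝ[X]) (t : ℝ) : ℝ :=
  ∑ n ∈ range (r + 1), q.coeff n / (m + n + 1) * t ^ (m + n + 1)

theorem prim_deriv (m r : ℕ) (q : ℝ[X]) (hq : q.natDegree ≤ r) (t : ℝ) :
    HasDerivAt (prim m r q) (t ^ m * q.eval t) t := by
  have h1 : t ^ m * q.eval t = ∑ n ∈ range (r + 1), q.coeff n / (m + n + 1) *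
      (((m + n + 1 : ℕ) : ℝ) * t ^ (m + n)) := by
    rw [eval_eq_sum_range' (Nat.lt_succ_of_le hq), mul_sum]
    refine sum_congr rfl fun n _ => ?_
    have : ((m : ℝ) + n + 1) ≠ 0 := by positivity
    push_cast
    rw [pow_add]
    field_simp
  rw [h1]
  unfold prim
  refine HasDerivAt.fun_sum fun n _ => ?_
  have := (hasDerivAt_pow (m + n + 1) t).const_mul (q.coeff n / (m + n + 1))
  simpa using this

/-- the increments of the primitive -/
theorem prim_inc (m r : ℕ) (q : ℝ[X]) (hq : q.natDegree ≤ r) (i : ℕ) (e c : ℝ)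
    (hc : 0 ≤ c)
    (hqi : ∀ t : ℝ, (5 : ℝ) ^ i ≤ t → t ≤ 4 * 5 ^ i → c ≤ e * q.eval t) (a b : ℝ)
    (ha : (5 : ℝ) ^ i ≤ a) (hab : a ≤ b) (hb : b ≤ 4 * 5 ^ i) :
    c * (b - a) ≤ e * (prim m r q b - prim m r q a) := by
  have hd : ∀ t, HasDerivAt (fun t => e * prim m r q t) (e * (t ^ m * q.eval t)) t := fun t =>
    (prim_deriv m r q hq t).const_mul e
  have h5 : (1 : ℝ) ≤ 5 ^ i := one_le_pow₀ (by norm_num)
  have key := (convex_Icc ((5 : ℝ) ^ i) (4 * 5 ^ i)).mul_sub_le_image_sub_of_le_deriv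
    (f := fun t => e * prim m r q t) (C := c)
    (fun t _ => (hd t).continuousAt.continuousWithinAt)
    (fun t _ => (hd t).differentiableAt.differentiableWithinAt)
    (fun t ht => by
      have ht' := interior_subset ht
      rw [(hd t).deriv]
      have h1 := hqi t ht'.1 ht'.2
      have h2 : (1 : ℝ) ≤ t ^ m := one_le_pow₀ (h5.trans ht'.1)
      have h3 : e * (t ^ m * q.eval t) = t ^ m * (e * q.eval t) := by ring
      rw [h3]
      nlinarith) a ⟨ha, hab.trans hb⟩ b ⟨ha.trans hab, hb⟩ hab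
  have e1 : e * (prim m r q b - prim m r q a) = e * prim m r q b - e * prim m r q a := by ring
  rw [e1]
  exact key

theorem s_ND : S_ND := by
  classical
  intro r k hrk
  rcases Nat.eq_zero_or_pos r with hr | hr
  · subst hr
    exact ⟨1, one_pos, fun X _ L _ x y _ _ _ i => i.elim0⟩
  obtain ⟨r', rfl⟩ : ∃ r', r = r' + 1 := ⟨r - 1, by omega⟩
  -- the sign vectors
  let sg : (Fin (r' + 1) → Bool) → ℕ → ℝ := fun s i =>
    if h : i < r' + 1 then (if s ⟨i, h⟩ then 1 else -1) else 1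
  have hsg : ∀ s i, sg s i = 1 ∨ sg s i = -1 := by
    intro s i
    simp only [sg]
    split_ifs
    · exact Or.inl rfl
    · exact Or.inr rfl
    · exact Or.inl rfl
  choose q hq1 hq2 hq3 using fun s => sgn_poly r' (sg s) (hsg s)
  set C' : ℝ := ∑ s : Fin (r' + 1) → Bool, ∑ n ∈ range (r' + 1), |(q s).coeff n| with hC'
  have hC'0 : 0 ≤ C' := sum_nonneg fun s _ => sum_nonneg fun n _ => abs_nonneg _
  refine ⟨2 ^ (r' + 1) * (C' + 1), by positivity, fun X hX L hL x y hx hy hj i => ?_⟩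
  set m := k - (r' + 1) with hm
  have hXr : (1 : ℝ) ≤ X := by exact_mod_cast hX
  have hX0 : (0 : ℝ) < X := by linarith
  let s : Fin (r' + 1) → Bool := fun i => decide (y i ≤ x i)
  -- membership
  have hmem : ∀ z : Fin (r' + 1) → ℕ, z ∈ Bx X (r' + 1) → ∀ i : Fin (r' + 1),
      (5 : ℝ) ^ (i : ℕ) ≤ z i / X ∧ (z i : ℝ) / X ≤ 4 * 5 ^ (i : ℕ) := by
    intro z hz i
    have h1 := (Fintype.mem_piFinset.1 hz) i
    unfold I at h1
    rw [mem_Ioc] at h1
    have h2 : ((5 ^ (i : ℕ) * X : ℕ) : ℝ) < z i := by exact_mod_cast h1.1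
    have h3 : (z i : ℝ) ≤ ((4 * 5 ^ (i : ℕ) * X : ℕ) : ℝ) := by exact_mod_cast h1.2
    push_cast at h2 h3
    constructor
    · rw [le_div_iff₀ hX0]; exact h2.le
    · rw [div_le_iff₀ hX0]; exact h3
  -- each term
  have hterm : ∀ i : Fin (r' + 1), (1 / 2 : ℝ) ^ (r' + 1) * (|(x i : ℝ) - y i| / X) ≤
      prim m r' (q s) (x i / X) - prim m r' (q s) (y i / X) := by
    intro i
    have hi : (i : ℕ) ≤ r' := Nat.lt_succ_iff.1 i.2
    have hsi : sg s i = if y i ≤ x i then 1 else -1 := by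
      simp only [sg, s, Fin.is_lt, dif_pos, Fin.eta, decide_eq_true_eq]
    by_cases hxy : y i ≤ x i
    · rw [if_pos hxy] at hsi
      have hxy' : (y i : ℝ) ≤ x i := by exact_mod_cast hxy
      have := prim_inc m r' (q s) (hq1 s) i (sg s i) ((1 / 2 : ℝ) ^ (r' + 1)) (by positivity)
        (hq2 s i hi) (y i / X) (x i / X) (hmem y hy i).1
        (div_le_div_of_nonneg_right hxy' hX0.le) (hmem x hx i).2
      rw [hsi, one_mul, ← sub_div] at this
      rw [abs_of_nonneg (by linarith)]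
      exact this
    · rw [if_neg hxy] at hsi
      have hxy' : (x i : ℝ) ≤ y i := by exact_mod_cast (not_le.1 hxy).le
      have := prim_inc m r' (q s) (hq1 s) i (sg s i) ((1 / 2 : ℝ) ^ (r' + 1)) (by positivity)
        (hq2 s i hi) (x i / X) (y i / X) (hmem x hx i).1
        (div_le_div_of_nonneg_right hxy' hX0.le) (hmem y hy i).2
      rw [hsi, ← sub_div] at this
      rw [abs_of_nonpos (by linarith)]
      have e1 : -((x i : ℝ) - y i) = y i - x i := by ring
      rw [e1]
      linarith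
  -- the sum
  have hsum : ∑ i, (prim m r' (q s) (x i / X) - prim m r' (q s) (y i / X)) ≤
      C' * (L / X ^ (m + 1)) := by
    have e1 : ∑ i, (prim m r' (q s) (x i / X) - prim m r' (q s) (y i / X)) =
        ∑ n ∈ range (r' + 1), (q s).coeff n / (m + n + 1) * ((∑ i, ((x i : ℝ) ^ (m + n + 1) -
          (y i : ℝ) ^ (m + n + 1))) / X ^ (m + n + 1)) := by
      unfold prim
      simp only [← sum_sub_distrib]
      rw [sum_comm]
      refine sum_congr rfl fun n _ => ?_
      rw [sum_div, mul_sum]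
      refine sum_congr rfl fun i _ => ?_
      rw [div_pow, div_pow]
      ring
    rw [e1]
    calc ∑ n ∈ range (r' + 1), (q s).coeff n / (m + n + 1) * ((∑ i, ((x i : ℝ) ^ (m + n + 1) -
          (y i : ℝ) ^ (m + n + 1))) / X ^ (m + n + 1))
        ≤ ∑ n ∈ range (r' + 1), |(q s).coeff n| * (L / X ^ (m + 1)) := by
          refine sum_le_sum fun n hn => ?_
          rw [mem_range] at hn
          have hj' := hj (m + n + 1) (by omega) (by omega)
          refine (le_abs_self _).trans ?_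
          rw [abs_mul, abs_div, abs_div]
          have d1 : |(m : ℝ) + n + 1| = (m : ℝ) + n + 1 := abs_of_nonneg (by positivity)
          have d2 : |(X : ℝ) ^ (m + n + 1)| = (X : ℝ) ^ (m + n + 1) := abs_of_nonneg (by positivity)
          rw [d1, d2]
          refine mul_le_mul ?_ ?_ (by positivity) (abs_nonneg _)
          · refine div_le_self (abs_nonneg _) ?_
            have : (0 : ℝ) ≤ m + n := by positivity
            linarith
          · refine div_le_div₀ hL hj' (by positivity) ?_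
            exact pow_le_pow_right₀ hXr (by omega)
      _ = (∑ n ∈ range (r' + 1), |(q s).coeff n|) * (L / X ^ (m + 1)) := by rw [sum_mul]
      _ ≤ C' * (L / X ^ (m + 1)) := by
          refine mul_le_mul_of_nonneg_right ?_ (by positivity)
          exact single_le_sum (f := fun s => ∑ n ∈ range (r' + 1), |(q s).coeff n|)
            (fun s _ => sum_nonneg fun n _ => abs_nonneg _) (mem_univ s)
  have hone : (1 / 2 : ℝ) ^ (r' + 1) * (|(x i : ℝ) - y i| / X) ≤ C' * (L / X ^ (m + 1)) := by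
    refine le_trans ?_ hsum
    calc (1 / 2 : ℝ) ^ (r' + 1) * (|(x i : ℝ) - y i| / X)
        ≤ ∑ i : Fin (r' + 1), (1 / 2 : ℝ) ^ (r' + 1) * (|(x i : ℝ) - y i| / X) :=
          single_le_sum (f := fun i : Fin (r' + 1) =>
            (1 / 2 : ℝ) ^ (r' + 1) * (|(x i : ℝ) - y i| / X)) (fun i _ => by positivity)
            (mem_univ i)
      _ ≤ _ := sum_le_sum fun i _ => hterm i
  -- conclusion
  have h2 : (2 : ℝ) ^ (r' + 1) * (1 / 2 : ℝ) ^ (r' + 1) = 1 := by
    rw [← mul_pow]; norm_num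
  have h3 : |(x i : ℝ) - y i| * (X : ℝ) ^ m =
      (2 : ℝ) ^ (r' + 1) * X ^ (m + 1) * ((1 / 2 : ℝ) ^ (r' + 1) * (|(x i : ℝ) - y i| / X)) := by
    have : (2 : ℝ) ^ (r' + 1) * X ^ (m + 1) * ((1 / 2 : ℝ) ^ (r' + 1) * (|(x i : ℝ) - y i| / X)) =
      ((2 : ℝ) ^ (r' + 1) * (1 / 2 : ℝ) ^ (r' + 1)) * (X ^ (m + 1) * (|(x i : ℝ) - y i| / X)) := by
      ring
    rw [this, h2, one_mul, pow_succ]
    field_simp
  rw [h3]
  calc (2 : ℝ) ^ (r' + 1) * X ^ (m + 1) * ((1 / 2 : ℝ) ^ (r' + 1) * (|(x i : ℝ) - y i| / X))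
      ≤ (2 : ℝ) ^ (r' + 1) * X ^ (m + 1) * (C' * (L / X ^ (m + 1))) :=
        mul_le_mul_of_nonneg_left hone (by positivity)
    _ = 2 ^ (r' + 1) * C' * L := by field_simp
    _ ≤ 2 ^ (r' + 1) * (C' + 1) * L := by
        refine mul_le_mul_of_nonneg_right ?_ hL
        refine mul_le_mul_of_nonneg_left (by linarith) (by positivity)

end Pool.Agent.L7h47.MW
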